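import Mathlib

/-!
# Proper edge weightings of bipartite graphs with two arbitrary real weights

Let `G` be a connected bipartite graph and `a ≠ b` real numbers.  If there is a set `K` of vertices with an odd number
of elements such that `a (d(u) - d(v)) / (b - a)` is not an integer for the edges `uv` with `u ∈ K`, `v ∉ K`, then `G` has a
proper `{a,b}`-edge weighting.  With `K = V`: connected bipartite graphs with an odd number of vertices, all `a ≠ b`.
-/

set_option autoImplicit false
set_option linter.unusedSectionVars false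

namespace Pool.Agent.Results.MP_124889_co.OddPart

open Finset

variable {V : Type} [Fintype V] [DecidableEq V]

/-- `f` is the degree sequence modulo `2` of a set of edges of `G` -/
def Good (G : SimpleGraph V) (f : V → ZMod 2) : Prop :=
  ∃ g : V → V → ZMod 2, (∀ u v, g u v = g v u) ∧ (∀ u v, g u v ≠ 0 → G.Adj u v) ∧
    ∀ v, ∑ x, g v x = f v

theorem good_zero (G : SimpleGraph V) : Good G 0 :=
  ⟨fun _ _ => 0, fun _ _ => rfl, fun _ _ h => absurd rfl h, fun _ => Finset.sum_const_zero⟩

theorem good_add {G : SimpleGraph V} {f f' : V → ZMod 2} (h : Good G f) (h' : Good G f') :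
    Good G (f + f') := by
  obtain ⟨g, h1, h2, h3⟩ := h
  obtain ⟨g', h1', h2', h3'⟩ := h'
  refine ⟨fun u v => g u v + g' u v, fun u v => ?_, fun u v h => ?_, fun v => ?_⟩
  · show g u v + g' u v = g v u + g' v u
    rw [h1, h1']
  · by_cases h0 : g u v = 0
    · refine h2' u v fun h0' => h ?_
      show g u v + g' u v = 0
      rw [h0, h0', add_zero]
    · exact h2 u v h0
  · rw [Finset.sum_add_distrib, h3, h3']
    rfl

theorem good_adj {G : SimpleGraph V} {u v : V} (h : G.Adj u v) :
    Good G (Pi.single u 1 + Pi.single v 1) := by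
  refine ⟨fun x y => (if x = u ∧ y = v then 1 else 0) + (if x = v ∧ y = u then 1 else 0),
    fun x y => ?_, fun x y hxy => ?_, fun x => ?_⟩
  · show (if x = u ∧ y = v then (1 : ZMod 2) else 0) + (if x = v ∧ y = u then 1 else 0) =
      (if y = u ∧ x = v then 1 else 0) + (if y = v ∧ x = u then 1 else 0)
    rw [add_comm, if_congr (and_comm (a := x = v)) rfl rfl, if_congr (and_comm (a := x = u)) rfl rfl]
  · by_contra hn
    apply hxy
    show (if x = u ∧ y = v then (1 : ZMod 2) else 0) + (if x = v ∧ y = u then 1 else 0) = 0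
    rw [if_neg, if_neg, add_zero]
    · rintro ⟨rfl, rfl⟩
      exact hn h.symm
    · rintro ⟨rfl, rfl⟩
      exact hn h
  · rw [Finset.sum_add_distrib]
    simp only [Pi.add_apply, Pi.single_apply]
    congr 1
    · by_cases hx : x = u
      · simp [hx]
      · simp [hx]
    · by_cases hx : x = v
      · simp [hx]
      · simp [hx]

theorem add_self (f : V → ZMod 2) : f + f = 0 := by
  funext v
  exact CharTwo.add_self_eq_zero _

theorem good_pair {G : SimpleGraph V} {u v : V} (p : G.Walk u v) :
    Good G (Pi.single u 1 + Pi.single v 1) := by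
  induction p with
  | nil => rw [add_self]; exact good_zero G
  | @cons u w v h q ih =>
    have h1 := good_add (good_adj h) ih
    have h2 : (Pi.single u 1 + Pi.single w 1 + (Pi.single w 1 + Pi.single v 1) : V → ZMod 2) =
        Pi.single u 1 + Pi.single v 1 := by
      rw [add_assoc, ← add_assoc (Pi.single w 1), add_self, zero_add]
    rwa [h2] at h1

theorem good_of_sum {G : SimpleGraph V} (hG : G.Connected) (f : V → ZMod 2) (hf : ∑ v, f v = 0) :
    Good G f := by
  classical
  obtain ⟨r⟩ := hG.nonempty
  have h1 : ∀ S : Finset V, Good G (∑ v ∈ S, f v • (Pi.single v 1 + Pi.single r 1)) := by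
    intro S
    induction S using Finset.induction_on with
    | empty => rw [Finset.sum_empty]; exact good_zero G
    | insert v S hv ih =>
      rw [Finset.sum_insert hv]
      refine good_add ?_ ih
      obtain ⟨p⟩ := hG.preconnected v r
      rcases (show f v = 0 ∨ f v = 1 by generalize f v = z; revert z; decide) with h | h
      · rw [h, zero_smul]; exact good_zero G
      · rw [h, one_smul]; exact good_pair p
  have h2 : ∑ v, f v • ((Pi.single v 1 + Pi.single r 1 : V → ZMod 2)) = f := by
    funext x
    simp only [smul_add, Finset.sum_add_distrib, Pi.add_apply, Finset.sum_apply, Pi.smul_apply,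
      Pi.single_apply, smul_eq_mul, mul_ite, mul_one, mul_zero]
    rw [Finset.sum_ite_eq univ x f, if_pos (mem_univ x)]
    by_cases hx : x = r
    · simp [hx, hf]
    · simp [hx]
  rw [← h2]
  exact h1 univ

/-- **Two arbitrary weights on a bipartite graph.**  `G` is a finite connected simple graph, `A` a set of vertices
such that every edge joins `A` to its complement (a bipartition), `a ≠ b` are real numbers and `K` is a set of vertices
with an odd number of elements such that for no edge `uv` with `u ∈ K` and `v ∉ K` the number `a (d(u) - d(v))` is an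
integral multiple of `b - a` (for example `K = V` if the number of vertices is odd).  Then there are edge weights in
`{a, b}` such that adjacent vertices have different weighted degrees. -/
theorem result {V : Type} [Fintype V] [DecidableEq V] (G : SimpleGraph V) [DecidableRel G.Adj]
    (hG : G.Connected) (A : Finset V) (hA : ∀ u v, G.Adj u v → (u ∈ A ↔ v ∉ A))
    (a b : ℝ) (hab : a ≠ b) (K : Finset V) (hK : Odd K.card)
    (hKb : ∀ u v, G.Adj u v → u ∈ K → v ∉ K →
      ∀ z : ℤ, a * ((G.degree u : ℝ) - (G.degree v : ℝ)) ≠ z * (b - a)) :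
    ∃ w : Sym2 V → ℝ, (∀ e, w e = a ∨ w e = b) ∧
      ∀ u v, G.Adj u v → ∑ x ∈ G.neighborFinset u, w s(u, x) ≠
        ∑ x ∈ G.neighborFinset v, w s(v, x) := by
  classical
  let t : ℝ := a / (b - a)
  have hba : b - a ≠ 0 := sub_ne_zero.2 hab.symm
  let x : V → ℤ := fun v => ⌊t * (G.degree v : ℝ)⌋
  -- the two colourings
  have hcol : ∃ c : V → ZMod 2, (∑ v, (c v - (x v : ZMod 2)) = 0) ∧
      ∀ u v, G.Adj u v → (u ∈ K ↔ v ∈ K) → c u ≠ c v := by
    let c0 : V → ZMod 2 := fun v => if v ∈ A then 0 else 1
    have h0 : ∀ u v, G.Adj u v → c0 u ≠ c0 v := by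
      intro u v h
      have := hA u v h
      by_cases hu : u ∈ A
      · simp [c0, hu, this.1 hu]
      · have hv : v ∈ A := by
          by_contra hv
          exact hu (this.2 hv)
        simp [c0, hu, hv]
    by_cases hs : ∑ v, (c0 v - (x v : ZMod 2)) = 0
    · exact ⟨c0, hs, fun u v h _ => h0 u v h⟩
    · have hs1 : ∑ v, (c0 v - (x v : ZMod 2)) = 1 := by
        generalize ∑ v, (c0 v - (x v : ZMod 2)) = z at hs
        revert z
        decide
      refine ⟨fun v => c0 v + (if v ∈ K then 1 else 0), ?_, fun u v h hk => ?_⟩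
      · have h1 : ∀ v, c0 v + (if v ∈ K then (1 : ZMod 2) else 0) - (x v : ZMod 2) =
            (c0 v - (x v : ZMod 2)) + (if v ∈ K then (1 : ZMod 2) else 0) := fun v => by ring
        rw [Finset.sum_congr rfl (fun v _ => h1 v), Finset.sum_add_distrib, hs1, Finset.sum_boole,
          Finset.filter_mem_eq_inter, Finset.univ_inter]
        obtain ⟨q, hq⟩ := hK
        rw [hq]
        push_cast
        have h2 : (2 : ZMod 2) = 0 := by decide
        linear_combination (q + 1 : ZMod 2) * h2
      · have h1 : (if u ∈ K then (1 : ZMod 2) else 0) = (if v ∈ K then 1 else 0) := by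
          by_cases hu : u ∈ K
          · rw [if_pos hu, if_pos (hk.1 hu)]
          · rw [if_neg hu, if_neg (fun hv => hu (hk.2 hv))]
        intro h'
        dsimp only at h'
        rw [h1] at h'
        exact h0 u v h (add_right_cancel h')
  obtain ⟨c, hc, hc'⟩ := hcol
  obtain ⟨g, hg1, hg2, hg3⟩ := good_of_sum hG _ hc
  let w : Sym2 V → ℝ := fun e => if (∃ u v, e = s(u, v) ∧ g u v = 1) then b else a
  have hw : ∀ u v, w s(u, v) = if g u v = 1 then b else a := by
    intro u v
    show (if (∃ u' v', s(u, v) = s(u', v') ∧ g u' v' = 1) then b else a) = _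
    congr 1
    apply propext
    constructor
    · rintro ⟨u', v', h, h'⟩
      rcases Sym2.eq_iff.1 h with ⟨rfl, rfl⟩ | ⟨rfl, rfl⟩
      · exact h'
      · rw [hg1]; exact h'
    · intro h
      exact ⟨u, v, rfl, h⟩
  let D : V → ℕ := fun v => (univ.filter (fun y => g v y = 1)).card
  have hD : ∀ v, (D v : ZMod 2) = c v - (x v : ZMod 2) := by
    intro v
    have e0 : ∑ y, g v y = c v - (x v : ZMod 2) := hg3 v
    rw [← e0]
    show ((univ.filter (fun y => g v y = 1)).card : ZMod 2) = _
    rw [← Finset.sum_boole]
    refine Finset.sum_congr rfl fun y _ => ?_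
    generalize g v y = z
    revert z
    decide
  have hσ : ∀ v, ∑ y ∈ G.neighborFinset v, w s(v, y) =
      (b - a) * (t * (G.degree v : ℝ) + (D v : ℝ)) := by
    intro v
    have h1 : ∀ y, w s(v, y) = a + (b - a) * (if g v y = 1 then 1 else 0) := by
      intro y
      rw [hw]
      split_ifs <;> ring
    have h2 : (G.neighborFinset v).filter (fun y => g v y = 1) =
        univ.filter (fun y => g v y = 1) := by
      ext y
      simp only [Finset.mem_filter, SimpleGraph.mem_neighborFinset, Finset.mem_univ, true_and]
      refine ⟨fun h => h.2, fun h => ⟨hg2 _ _ ?_, h⟩⟩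
      rw [h]
      exact one_ne_zero
    rw [Finset.sum_congr rfl (fun y _ => h1 y), Finset.sum_add_distrib, Finset.sum_const,
      ← Finset.mul_sum, Finset.sum_boole, h2, SimpleGraph.card_neighborFinset_eq_degree,
      nsmul_eq_mul]
    show (G.degree v : ℝ) * a + (b - a) * (D v : ℝ) = _
    simp only [t]
    field_simp
  refine ⟨w, fun e => ?_, fun u v huv h => ?_⟩
  · show (if _ then b else a) = a ∨ (if _ then b else a) = b
    split_ifs
    · exact Or.inr rfl
    · exact Or.inl rfl
  · rw [hσ, hσ] at h
    have h1 := mul_left_cancel₀ hba h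
    have h2 : t * (G.degree u : ℝ) = t * (G.degree v : ℝ) + (((D v : ℤ) - (D u : ℤ) : ℤ) : ℝ) := by
      push_cast
      linarith
    have h3 : x u = x v + ((D v : ℤ) - (D u : ℤ)) := by
      show ⌊t * (G.degree u : ℝ)⌋ = ⌊t * (G.degree v : ℝ)⌋ + ((D v : ℤ) - (D u : ℤ))
      rw [h2, Int.floor_add_intCast]
    have h4 : (x u : ZMod 2) = (x v : ZMod 2) + ((D v : ZMod 2) - (D u : ZMod 2)) := by
      have := congrArg (Int.cast : ℤ → ZMod 2) h3
      push_cast at this
      exact this
    rw [hD u, hD v] at h4
    have h5 : c u = c v := by linear_combination h4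
    have key : ∀ z : ℤ, t * (G.degree u : ℝ) = t * (G.degree v : ℝ) + (z : ℝ) →
        a * ((G.degree u : ℝ) - (G.degree v : ℝ)) = z * (b - a) := by
      intro z hz
      have h6 : t * (b - a) = a := div_mul_cancel₀ a hba
      linear_combination (b - a) * hz - ((G.degree u : ℝ) - (G.degree v : ℝ)) * h6
    refine hc' u v huv ⟨fun hu => ?_, fun hv => ?_⟩ h5
    · by_contra hv
      exact hKb u v huv hu hv _ (key _ h2)
    · by_contra hu
      refine hKb v u huv.symm hv hu (-((D v : ℤ) - (D u : ℤ))) ?_
      have := key _ h2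
      push_cast at this ⊢
      linear_combination -this

end Pool.Agent.Results.MP_124889_co.OddPart
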