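import Pool.Agent.H239R2.Cover.Orient

/-!
# Proper edge weightings with two arbitrary real weights

Let `G` be a graph with a proper colouring with `k` colours and a cut `(A, V ∖ A)` whose edges contain `m` pairwise
edge-disjoint spanning trees, where `3k ≤ 2m`, or `k < m` and `k(m-1) ≤ (m-k)|V|`.  Then for all reals `a ≠ b` the graph
`G` has a proper `{a,b}`-edge weighting.
-/

set_option autoImplicit false
set_option linter.unusedSectionVars false

namespace Pool.Agent.Results.MP_124889_co.TwoWeights

open Finset Pool.Agent.H239R2.Cover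

variable {V : Type} [Fintype V] [DecidableEq V]

/-- the edges of the cut, as pairs (end in `A`, end outside `A`) -/
abbrev CutEdge (G : SimpleGraph V) (A : Finset V) : Type :=
  {p : V × V // p.1 ∈ A ∧ p.2 ∉ A ∧ G.Adj p.1 p.2}

/-- A subset of the cut with prescribed degrees modulo `m`. -/
theorem core (G : SimpleGraph V) (A : Finset V) (m : ℕ) (hm : 0 < m)
    (T : Fin m → SimpleGraph V) (hTG : ∀ i, T i ≤ G) (hTc : ∀ i, (T i).Connected)
    (hTd : ∀ i j, i ≠ j → Disjoint (T i) (T j))
    (hTA : ∀ i u v, (T i).Adj u v → (u ∈ A ↔ v ∉ A)) (f : V → ZMod m)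
    (hf : ∑ v, (if v ∈ A then f v else - f v) = 0) :
    ∃ F : V → V → Prop, (∀ u v, F u v → F v u) ∧ (∀ u v, F u v → G.Adj u v) ∧
      ∀ (v : V) (N : Finset V), (∀ x, x ∈ N ↔ F v x) → (N.card : ZMod m) = f v := by
  classical
  let E := CutEdge G A
  let sr : E → V := fun e => e.1.1
  let ds : E → V := fun e => e.1.2
  let dd : V → ℕ := fun v => (univ.filter (fun e : E => ds e = v)).card
  have hdd0 : ∀ v ∈ A, dd v = 0 := by
    intro v hv
    refine Finset.card_eq_zero.2 (Finset.filter_eq_empty_iff.2 fun e _ h => ?_)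
    exact e.2.2.1 (by rw [show e.1.2 = v from h]; exact hv)
  have hddsum : ∑ v, dd v = Fintype.card E := by
    show ∑ v, (univ.filter (fun e : E => ds e = v)).card = _
    rw [← Finset.card_eq_sum_card_fiberwise (f := ds) (s := univ) (t := univ)
      (fun _ _ => Finset.mem_coe.mpr (Finset.mem_univ _))]
    exact Finset.card_univ
  obtain ⟨o, ho⟩ := orientation_of_packing sr ds m hm
    (fun j => univ.filter fun e : E => (T j).Adj e.1.1 e.1.2) (fun i j hij => by
      rw [Finset.disjoint_left]
      intro e h1 h2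
      have h3 := (Finset.mem_filter.1 h1).2
      have h4 := (Finset.mem_filter.1 h2).2
      have h5 : (T i ⊓ T j).Adj e.1.1 e.1.2 := ⟨h3, h4⟩
      rw [disjoint_iff.1 (hTd i j hij)] at h5
      exact h5)
    (fun j => by
      intro X hX hX'
      obtain ⟨a, ha⟩ := hX
      obtain ⟨b, hb⟩ : ∃ b, b ∉ X := by
        by_contra h
        push Not at h
        exact hX' (Finset.eq_univ_of_forall h)
      obtain ⟨p⟩ := (hTc j).preconnected a b
      obtain ⟨d, -, hd1, hd2⟩ := p.exists_boundary_dart (X : Set V) (Finset.mem_coe.2 ha)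
        (fun h => hb (Finset.mem_coe.1 h))
      have h1 : (T j).Adj d.fst d.snd := d.adj
      have h2 := hTA j _ _ h1
      have h3 : d.fst ∈ X := Finset.mem_coe.1 hd1
      have h4 : d.snd ∉ X := fun h => hd2 (Finset.mem_coe.2 h)
      by_cases hA : d.fst ∈ A
      · refine ⟨⟨(d.fst, d.snd), hA, h2.1 hA, hTG j h1⟩,
          Finset.mem_filter.2 ⟨mem_univ _, h1⟩, ?_⟩
        show Leaves sr ds X _
        unfold Leaves
        simp only [sr, ds]
        tauto
      · have hA' : d.snd ∈ A := by
          by_contra h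
          exact hA (h2.2 h)
        refine ⟨⟨(d.snd, d.fst), hA', hA, (hTG j h1).symm⟩,
          Finset.mem_filter.2 ⟨mem_univ _, h1.symm⟩, ?_⟩
        show Leaves sr ds X _
        unfold Leaves
        simp only [sr, ds]
        tauto)
    (fun v => (if v ∈ A then f v else - f v) + (dd v : ZMod m)) (by
      rw [Finset.sum_add_distrib, hf, zero_add, ← hddsum, Nat.cast_sum])
  let D : V → ℕ := fun v =>
    (univ.filter (fun e : E => o e = true ∧ (e.1.1 = v ∨ e.1.2 = v))).card
  have hD : ∀ v, (D v : ZMod m) = f v := by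
    intro v
    have h := ho v
    by_cases hv : v ∈ A
    · rw [if_pos hv, hdd0 v hv, Nat.cast_zero, add_zero] at h
      rw [← h]
      congr 1
      show (univ.filter _).card = (univ.filter _).card
      congr 1
      ext e
      simp only [Finset.mem_filter, Finset.mem_univ, true_and, tail, sr, ds]
      have h2 : e.1.2 ≠ v := fun h' => e.2.2.1 (by rw [h']; exact hv)
      by_cases hoe : o e = true
      · rw [if_pos hoe]
        simp [hoe, h2]
      · rw [if_neg hoe]
        simp [hoe, h2]
    · rw [if_neg hv] at h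
      have h1 : outdeg sr ds o v + D v = dd v := by
        show (univ.filter _).card + (univ.filter _).card = (univ.filter _).card
        rw [← Finset.card_union_of_disjoint]
        · congr 1
          ext e
          simp only [Finset.mem_union, Finset.mem_filter, Finset.mem_univ, true_and, tail, sr, ds]
          have h2 : e.1.1 ≠ v := fun h' => hv (by rw [← h']; exact e.2.1)
          by_cases hoe : o e = true
          · rw [if_pos hoe]
            simp [hoe, h2]
          · rw [if_neg hoe]
            simp [hoe]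
        · rw [Finset.disjoint_left]
          intro e he he'
          have h3 := (Finset.mem_filter.1 he).2
          have h4 := (Finset.mem_filter.1 he').2
          unfold tail at h3
          rw [if_pos h4.1] at h3
          exact hv (by rw [← (show e.1.1 = v from h3)]; exact e.2.1)
      have h2 := congrArg (Nat.cast : ℕ → ZMod m) h1
      rw [Nat.cast_add, h] at h2
      linear_combination h2
  refine ⟨fun u v => (∃ h : u ∈ A ∧ v ∉ A ∧ G.Adj u v, o ⟨(u, v), h⟩ = true) ∨
    (∃ h : v ∈ A ∧ u ∉ A ∧ G.Adj v u, o ⟨(v, u), h⟩ = true), ?_, ?_, ?_⟩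
  · rintro u v (h | h)
    · exact Or.inr h
    · exact Or.inl h
  · rintro u v (⟨h, -⟩ | ⟨h, -⟩)
    · exact h.2.2
    · exact h.2.2.symm
  · intro v N hN
    rw [← hD v]
    congr 1
    by_cases hv : v ∈ A
    · symm
      refine Finset.card_bij (fun e _ => e.1.2) ?_ ?_ ?_
      · intro e he
        have h1 := (Finset.mem_filter.1 he).2
        have h2 : e.1.1 = v := by
          rcases h1.2 with h | h
          · exact h
          · exact absurd (by rw [h]; exact hv) e.2.2.1
        rw [hN]
        left
        subst h2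
        exact ⟨e.2, h1.1⟩
      · intro e he e' he' h
        have h1 := (Finset.mem_filter.1 he).2
        have h1' := (Finset.mem_filter.1 he').2
        have h2 : e.1.1 = v := by
          rcases h1.2 with h | h
          · exact h
          · exact absurd (by rw [h]; exact hv) e.2.2.1
        have h2' : e'.1.1 = v := by
          rcases h1'.2 with h | h
          · exact h
          · exact absurd (by rw [h]; exact hv) e'.2.2.1
        exact Subtype.ext (Prod.ext (h2.trans h2'.symm) h)
      · intro x hx
        rw [hN] at hx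
        rcases hx with ⟨h, ho'⟩ | ⟨h, ho'⟩
        · exact ⟨⟨(v, x), h⟩, Finset.mem_filter.2 ⟨mem_univ _, ho', Or.inl rfl⟩, rfl⟩
        · exact absurd hv h.2.1
    · symm
      refine Finset.card_bij (fun e _ => e.1.1) ?_ ?_ ?_
      · intro e he
        have h1 := (Finset.mem_filter.1 he).2
        have h2 : e.1.2 = v := by
          rcases h1.2 with h | h
          · exact absurd (by rw [← h]; exact e.2.1) hv
          · exact h
        rw [hN]
        right
        subst h2
        exact ⟨e.2, h1.1⟩
      · intro e he e' he' h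
        have h1 := (Finset.mem_filter.1 he).2
        have h1' := (Finset.mem_filter.1 he').2
        have h2 : e.1.2 = v := by
          rcases h1.2 with h | h
          · exact absurd (by rw [← h]; exact e.2.1) hv
          · exact h
        have h2' : e'.1.2 = v := by
          rcases h1'.2 with h | h
          · exact absurd (by rw [← h]; exact e'.2.1) hv
          · exact h
        exact Subtype.ext (Prod.ext h (h2.trans h2'.symm))
      · intro x hx
        rw [hN] at hx
        rcases hx with ⟨h, ho'⟩ | ⟨h, ho'⟩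
        · exact absurd h.1 hv
        · exact ⟨⟨(x, v), h⟩, Finset.mem_filter.2 ⟨mem_univ _, ho', Or.inr rfl⟩, rfl⟩

/-- Free choices at the vertices of `S` give all values of the signed sum. -/
theorem choose_signs (A S : Finset V) (m : ℕ) (hm : 0 < m) (hS : m - 1 ≤ S.card) (g : ZMod m) :
    ∃ ε : V → ZMod m, (∀ v, ε v = 0 ∨ (v ∈ S ∧ ε v = 1)) ∧
      ∑ v, (if v ∈ A then ε v else - ε v) = g := by
  have : NeZero m := ⟨hm.ne'⟩
  let q := (univ.filter (fun v => v ∈ S ∧ v ∉ A)).card
  have hs : (g + (q : ZMod m)).val ≤ S.card := by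
    have := ZMod.val_lt (g + (q : ZMod m))
    omega
  obtain ⟨R, hR, hRc⟩ := Finset.exists_subset_card_eq hs
  refine ⟨fun v => if v ∈ S then (if v ∈ A then (if v ∈ R then 1 else 0) else
    (if v ∈ R then 0 else 1)) else 0, fun v => ?_, ?_⟩
  · dsimp only
    split_ifs <;> simp_all
  · have h1 : ∀ v, (if v ∈ A then (if v ∈ S then (if v ∈ A then (if v ∈ R then (1 : ZMod m) else 0)
        else (if v ∈ R then 0 else 1)) else 0) else
        -(if v ∈ S then (if v ∈ A then (if v ∈ R then (1 : ZMod m) else 0) else
        (if v ∈ R then 0 else 1)) else 0)) =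
        (if v ∈ R then 1 else 0) - (if v ∈ S ∧ v ∉ A then 1 else 0) := by
      intro v
      by_cases hA : v ∈ A <;> by_cases hSv : v ∈ S <;> by_cases hRv : v ∈ R
      all_goals first
        | exact absurd (hR hRv) hSv
        | simp [hA, hSv, hRv]
    rw [Finset.sum_congr rfl (fun v _ => h1 v), Finset.sum_sub_distrib, Finset.sum_boole,
      Finset.sum_boole, Finset.filter_mem_eq_inter, Finset.univ_inter, hRc, ZMod.natCast_val,
      ZMod.cast_id]
    show g + (q : ZMod m) - (q : ZMod m) = g
    ring

/-- From a proper colouring modulo `m` with the right signed sum to a proper `{a,b}`-edge weighting. -/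
theorem weighting (G : SimpleGraph V) [DecidableRel G.Adj] (A : Finset V) (m : ℕ) (hm : 0 < m)
    (T : Fin m → SimpleGraph V) (hTG : ∀ i, T i ≤ G) (hTc : ∀ i, (T i).Connected)
    (hTd : ∀ i j, i ≠ j → Disjoint (T i) (T j))
    (hTA : ∀ i u v, (T i).Adj u v → (u ∈ A ↔ v ∉ A)) (S : Finset V) (hS : m - 1 ≤ S.card)
    (c : V → ZMod m) (hc : ∀ u v, G.Adj u v → c u ≠ c v ∧ (v ∈ S → c u ≠ c v + 1))
    (a b : ℝ) (hab : a ≠ b) :
    ∃ w : Sym2 V → ℝ, (∀ e, w e = a ∨ w e = b) ∧
      ∀ u v, G.Adj u v → ∑ x ∈ G.neighborFinset u, w s(u, x) ≠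
        ∑ x ∈ G.neighborFinset v, w s(v, x) := by
  classical
  let t : ℝ := a / (b - a)
  have hba : b - a ≠ 0 := sub_ne_zero.2 hab.symm
  let x : V → ℤ := fun v => ⌊t * (G.degree v : ℝ)⌋
  obtain ⟨ε, hε, hsum⟩ := choose_signs A S m hm hS
    (-∑ v, (if v ∈ A then (c v - (x v : ZMod m)) else - (c v - (x v : ZMod m))))
  obtain ⟨F, hF1, hF2, hF3⟩ := core G A m hm T hTG hTc hTd hTA
    (fun v => c v + ε v - (x v : ZMod m)) (by
      have h1 : ∀ v, (if v ∈ A then c v + ε v - (x v : ZMod m) else
          -(c v + ε v - (x v : ZMod m))) = (if v ∈ A then ε v else - ε v) +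
          (if v ∈ A then (c v - (x v : ZMod m)) else - (c v - (x v : ZMod m))) := by
        intro v
        split_ifs <;> ring
      rw [Finset.sum_congr rfl (fun v _ => h1 v), Finset.sum_add_distrib, hsum]
      ring)
  let w : Sym2 V → ℝ := fun e => if (∃ u v, e = s(u, v) ∧ F u v) then b else a
  have hw : ∀ u v, w s(u, v) = if F u v then b else a := by
    intro u v
    show (if (∃ u' v', s(u, v) = s(u', v') ∧ F u' v') then b else a) = _
    congr 1
    apply propext
    constructor
    · rintro ⟨u', v', h, h'⟩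
      rcases Sym2.eq_iff.1 h with ⟨rfl, rfl⟩ | ⟨rfl, rfl⟩
      · exact h'
      · exact hF1 _ _ h'
    · intro h
      exact ⟨u, v, rfl, h⟩
  let D : V → ℕ := fun v => (univ.filter (fun y => F v y)).card
  have hD : ∀ v, (D v : ZMod m) = c v + ε v - (x v : ZMod m) := fun v =>
    hF3 v _ (fun y => by simp)
  have hσ : ∀ v, ∑ y ∈ G.neighborFinset v, w s(v, y) =
      (b - a) * (t * (G.degree v : ℝ) + (D v : ℝ)) := by
    intro v
    have h1 : ∀ y, w s(v, y) = a + (b - a) * (if F v y then 1 else 0) := by
      intro y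
      rw [hw]
      split_ifs <;> ring
    have h2 : (G.neighborFinset v).filter (fun y => F v y) = univ.filter (fun y => F v y) := by
      ext y
      simp only [Finset.mem_filter, SimpleGraph.mem_neighborFinset, Finset.mem_univ, true_and]
      exact ⟨fun h => h.2, fun h => ⟨hF2 _ _ h, h⟩⟩
    rw [Finset.sum_congr rfl (fun y _ => h1 y), Finset.sum_add_distrib, Finset.sum_const,
      ← Finset.mul_sum, Finset.sum_boole, h2, SimpleGraph.card_neighborFinset_eq_degree,
      nsmul_eq_mul]
    show (G.degree v : ℝ) * a + (b - a) * (D v : ℝ) = _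
    simp only [t]
    field_simp
  refine ⟨w, fun e => ?_, fun u v huv h => ?_⟩
  · show (if _ then b else a) = a ∨ (if _ then b else a) = b
    split_ifs
    · exact Or.inr rfl
    · exact Or.inl rfl
  · rw [hσ, hσ] at h
    have h1 := mul_left_cancel₀ hba h
    -- the fractional parts agree
    have h2 : t * (G.degree u : ℝ) = t * (G.degree v : ℝ) + (((D v : ℤ) - (D u : ℤ) : ℤ) : ℝ) := by
      push_cast
      linarith
    have h3 : x u = x v + ((D v : ℤ) - (D u : ℤ)) := by
      show ⌊t * (G.degree u : ℝ)⌋ = ⌊t * (G.degree v : ℝ)⌋ + ((D v : ℤ) - (D u : ℤ))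
      rw [h2, Int.floor_add_intCast]
    have h4 : (x u : ZMod m) = (x v : ZMod m) + ((D v : ZMod m) - (D u : ZMod m)) := by
      have := congrArg (Int.cast : ℤ → ZMod m) h3
      push_cast at this
      exact this
    rw [hD u, hD v] at h4
    have h5 : c u + ε u = c v + ε v := by linear_combination h4
    have h6 := hc u v huv
    have h7 := hc v u huv.symm
    rcases hε u with h8 | ⟨h8, h8'⟩ <;> rcases hε v with h9 | ⟨h9, h9'⟩
    · rw [h8, h9, add_zero, add_zero] at h5
      exact h6.1 h5
    · rw [h8, h9', add_zero] at h5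
      exact h6.2 h9 h5
    · rw [h8', h9, add_zero] at h5
      exact h7.2 h8 h5.symm
    · rw [h8', h9'] at h5
      exact h6.1 (add_right_cancel h5)

/-- Among the cyclic shifts of a colouring there is one for which the first `j` classes are large. -/
theorem shift {k j : ℕ} [NeZero k] (hj : j ≤ k) (C : V → Fin k) :
    ∃ s : Fin k, j * Fintype.card V ≤ k * (univ.filter (fun v => (C v + s).val < j)).card := by
  classical
  by_contra hcon
  push Not at hcon
  have h1 : ∑ s : Fin k, (univ.filter (fun v => (C v + s).val < j)).card =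
      j * Fintype.card V := by
    simp_rw [Finset.card_filter]
    rw [Finset.sum_comm]
    have h2 : ∀ v : V, ∑ s : Fin k, (if (C v + s).val < j then 1 else 0) = j := by
      intro v
      rw [Fintype.sum_equiv (Equiv.addLeft (C v)) (fun s => if (C v + s).val < j then 1 else 0)
        (fun i : Fin k => if i.val < j then 1 else 0) (fun s => rfl)]
      rw [← Finset.card_filter]
      have h3 : (univ.filter (fun i : Fin k => i.val < j)).card = (Finset.range j).card := by
        refine Finset.card_bij (fun i _ => i.val) ?_ ?_ ?_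
        · intro i hi
          exact Finset.mem_range.2 (Finset.mem_filter.1 hi).2
        · intro i _ i' _ h
          exact Fin.ext h
        · intro i hi
          have := Finset.mem_range.1 hi
          exact ⟨⟨i, by omega⟩, Finset.mem_filter.2 ⟨mem_univ _, this⟩, rfl⟩
      rw [h3, Finset.card_range]
    rw [Finset.sum_congr rfl (fun v _ => h2 v), Finset.sum_const, Finset.card_univ,
      smul_eq_mul, mul_comm]
  have h2 : ∑ s : Fin k, k * (univ.filter (fun v => (C v + s).val < j)).card <
      ∑ _s : Fin k, j * Fintype.card V :=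
    Finset.sum_lt_sum_of_nonempty ⟨0, mem_univ _⟩ (fun s _ => hcon s)
  rw [← Finset.mul_sum, h1, Finset.sum_const, Finset.card_univ, Fintype.card_fin,
    smul_eq_mul] at h2
  exact lt_irrefl _ h2

/-- the colours: the first `j` classes have two colours, the others one -/
def colour (j i : ℕ) : ℕ := if i < j then 2 * i else i + j

theorem of_colouring (G : SimpleGraph V) [DecidableRel G.Adj] {k : ℕ} (C : G.Coloring (Fin k))
    (A : Finset V) (m : ℕ) (h1 : k < m) (h2 : m ≤ 2 * k)
    (h3 : k * (m - 1) ≤ (m - k) * Fintype.card V)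
    (T : Fin m → SimpleGraph V) (hTG : ∀ i, T i ≤ G) (hTc : ∀ i, (T i).Connected)
    (hTd : ∀ i j, i ≠ j → Disjoint (T i) (T j))
    (hTA : ∀ i u v, (T i).Adj u v → (u ∈ A ↔ v ∉ A)) (a b : ℝ) (hab : a ≠ b) :
    ∃ w : Sym2 V → ℝ, (∀ e, w e = a ∨ w e = b) ∧
      ∀ u v, G.Adj u v → ∑ x ∈ G.neighborFinset u, w s(u, x) ≠
        ∑ x ∈ G.neighborFinset v, w s(v, x) := by
  classical
  have hk : 0 < k := by omega
  have : NeZero k := ⟨hk.ne'⟩
  obtain ⟨j, rfl⟩ : ∃ j, m = k + j := ⟨m - k, by omega⟩
  have hj : j ≤ k := by omega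
  obtain ⟨s, hs⟩ := shift hj (fun v => C v)
  have hS : k + j - 1 ≤ (univ.filter (fun v => (C v + s).val < j)).card := by
    rw [Nat.add_sub_cancel_left] at h3
    exact Nat.le_of_mul_le_mul_left (h3.trans hs) hk
  have hlt : ∀ v, (C v + s).val < k := fun v => (C v + s).2
  have hinj : ∀ p q : ℕ, p < k + j → q < k + j → (p : ZMod (k + j)) = (q : ZMod (k + j)) →
      p = q := by
    intro p q hp hq h
    rw [ZMod.natCast_eq_natCast_iff', Nat.mod_eq_of_lt hp, Nat.mod_eq_of_lt hq] at h
    exact h
  refine weighting G A (k + j) (by omega) T hTG hTc hTd hTA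
    (univ.filter (fun v => (C v + s).val < j)) hS
    (fun v => (colour j (C v + s).val : ZMod (k + j))) (fun u v huv => ?_) a b hab
  have hne : (C u + s).val ≠ (C v + s).val := by
    intro h
    exact C.valid huv (add_right_cancel (Fin.ext h))
  have hu := hlt u
  have hv := hlt v
  constructor
  · intro h
    have := hinj _ _ (by unfold colour; split_ifs <;> omega) (by unfold colour; split_ifs <;> omega) h
    unfold colour at this
    split_ifs at this <;> omega
  · intro hvS h
    have hvS' := (Finset.mem_filter.1 hvS).2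
    have h' : (colour j (C u + s).val : ZMod (k + j)) =
        ((colour j (C v + s).val + 1 : ℕ) : ZMod (k + j)) := by
      rw [Nat.cast_add, Nat.cast_one]
      exact h
    have := hinj _ _ (by unfold colour; split_ifs <;> omega)
      (by unfold colour; rw [if_pos hvS']; omega) h'
    unfold colour at this
    rw [if_pos hvS'] at this
    split_ifs at this <;> omega

/-- Both sides of the cut have at least `m` vertices. -/
theorem card_ge (A : Finset V) (m : ℕ) (hm : 0 < m) (T : Fin m → SimpleGraph V)
    (hTc : ∀ i, (T i).Connected) (hTd : ∀ i j, i ≠ j → Disjoint (T i) (T j))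
    (hTA : ∀ i u v, (T i).Adj u v → (u ∈ A ↔ v ∉ A)) (hV : 1 < Fintype.card V) :
    2 * m ≤ Fintype.card V := by
  classical
  have : Nontrivial V := Fintype.one_lt_card_iff_nontrivial.1 hV
  have key : ∀ v, ∀ i, ∃ y, (T i).Adj v y := by
    intro v i
    have h1 := (hTc i).preconnected.degree_pos_of_nontrivial v
    obtain ⟨y, hy⟩ := (SimpleGraph.degree_pos_iff_exists_adj (T i) v).1 h1
    exact ⟨y, hy⟩
  have side : ∀ B : Finset V, (∀ i u v, (T i).Adj u v → (u ∉ B → v ∈ B)) →
      (∃ v, v ∉ B) → m ≤ B.card := by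
    rintro B hB ⟨v, hv⟩
    choose y hy using key v
    have h1 : (univ.image y).card ≤ B.card := Finset.card_le_card (by
      intro z hz
      obtain ⟨i, _, rfl⟩ := Finset.mem_image.1 hz
      exact hB i _ _ (hy i) hv)
    rw [Finset.card_image_of_injective _ (fun i i' h => by
      by_contra hne
      have h5 : (T i ⊓ T i').Adj v (y i) := ⟨hy i, by rw [h]; exact hy i'⟩
      rw [disjoint_iff.1 (hTd i i' hne)] at h5
      exact h5), Finset.card_univ, Fintype.card_fin] at h1
    exact h1
  obtain ⟨v⟩ : Nonempty V := inferInstance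
  obtain ⟨y, hy⟩ := key v ⟨0, hm⟩
  have hvy := hTA _ _ _ hy
  have hA1 : m ≤ A.card := by
    refine side A (fun i u v h hu => ?_) ?_
    · by_contra hv
      exact hu ((hTA i u v h).2 hv)
    · by_cases hv : v ∈ A
      · exact ⟨y, hvy.1 hv⟩
      · exact ⟨v, hv⟩
  have hA2 : m ≤ Aᶜ.card := by
    refine side Aᶜ (fun i u v h hu => ?_) ?_
    · rw [Finset.mem_compl, not_not] at hu
      exact Finset.mem_compl.2 ((hTA i u v h).1 hu)
    · by_cases hv : v ∈ A
      · exact ⟨v, by rw [Finset.mem_compl, not_not]; exact hv⟩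
      · refine ⟨y, ?_⟩
        rw [Finset.mem_compl, not_not]
        by_contra h
        exact hv (hvy.2 h)
  have := Finset.card_add_card_compl A
  omega

/-- **Proper edge weightings with two arbitrary weights.**  Let `G` be a finite simple graph with a proper
colouring `C` with `k` colours.  Let `A` be a set of vertices and `T 0, ..., T (m-1)` pairwise edge-disjoint connected
spanning subgraphs of `G` whose edges all join `A` to its complement (for example spanning trees of the cut).  Suppose
that `3k ≤ 2m`, or that `k < m` and `k(m-1) ≤ (m-k)|V|`.  Then for all real numbers `a ≠ b` there are edge weights in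
`{a, b}` such that adjacent vertices have different weighted degrees. -/
theorem result {V : Type} [Fintype V] [DecidableEq V] (G : SimpleGraph V) [DecidableRel G.Adj]
    {k m : ℕ} (C : G.Coloring (Fin k)) (A : Finset V) (T : Fin m → SimpleGraph V)
    (hTG : ∀ i, T i ≤ G) (hTc : ∀ i, (T i).Connected)
    (hTd : ∀ i j, i ≠ j → Disjoint (T i) (T j))
    (hTA : ∀ i u v, (T i).Adj u v → (u ∈ A ↔ v ∉ A))
    (hkm : 3 * k ≤ 2 * m ∨ (k < m ∧ k * (m - 1) ≤ (m - k) * Fintype.card V))
    (a b : ℝ) (hab : a ≠ b) :
    ∃ w : Sym2 V → ℝ, (∀ e, w e = a ∨ w e = b) ∧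
      ∀ u v, G.Adj u v → ∑ x ∈ G.neighborFinset u, w s(u, x) ≠
        ∑ x ∈ G.neighborFinset v, w s(v, x) := by
  classical
  rcases Nat.lt_or_ge 1 (Fintype.card V) with hV | hV
  swap
  · refine ⟨fun _ => a, fun _ => Or.inl rfl, fun u v huv => ?_⟩
    exact absurd (Fintype.card_le_one_iff.1 hV u v) huv.ne
  obtain ⟨v0⟩ : Nonempty V := Fintype.card_pos_iff.1 (by omega)
  have hk : 0 < k := by
    have := (C v0).2
    omega
  -- the case of at least `3k/2` and at most `2k` trees
  have case1 : ∀ m' : ℕ, m' ≤ m → m' ≤ 2 * k → 3 * k ≤ 2 * m' →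
      ∃ w : Sym2 V → ℝ, (∀ e, w e = a ∨ w e = b) ∧
      ∀ u v, G.Adj u v → ∑ x ∈ G.neighborFinset u, w s(u, x) ≠
        ∑ x ∈ G.neighborFinset v, w s(v, x) := by
    intro m' h1 h2 h3
    have hn : 2 * m' ≤ Fintype.card V := card_ge A m' (by omega) (fun i => T (Fin.castLE h1 i))
      (fun i => hTc _) (fun i j hij => hTd _ _ fun h => hij (Fin.castLE_injective h1 h))
      (fun i => hTA _) hV
    refine of_colouring G C A m' (by omega) h2 ?_ (fun i => T (Fin.castLE h1 i))
      (fun i => hTG _) (fun i => hTc _)
      (fun i j hij => hTd _ _ fun h => hij (Fin.castLE_injective h1 h)) (fun i => hTA _) a b hab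
    obtain ⟨j, rfl⟩ : ∃ j, m' = k + j := ⟨m' - k, by omega⟩
    rw [Nat.add_sub_cancel_left]
    have hj : k ≤ 2 * j := by omega
    calc k * (k + j - 1) ≤ k * (k + j) := Nat.mul_le_mul_left _ (Nat.sub_le _ _)
      _ ≤ (2 * j) * (k + j) := Nat.mul_le_mul_right _ hj
      _ = j * (2 * (k + j)) := by ring
      _ ≤ j * Fintype.card V := Nat.mul_le_mul_left _ hn
  rcases Nat.lt_or_ge (2 * k) m with hm2 | hm2
  · exact case1 (2 * k) hm2.le le_rfl (by omega)
  · rcases hkm with h | ⟨h, h'⟩
    · exact case1 m le_rfl hm2 h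
    · exact of_colouring G C A m h hm2 h' T hTG hTc hTd hTA a b hab

end Pool.Agent.Results.MP_124889_co.TwoWeights
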